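import Mathlib
import Pool.Agent.H.MP_5b8c2d_co.C

set_option autoImplicit false

namespace Pool.Agent.Results.MP_5b8c2d_co.No

/-- The friends-and-strangers graph of `X` and `Y`. -/
def FS {n : ℕ} (X Y : SimpleGraph (Fin n)) : SimpleGraph (Equiv.Perm (Fin n)) :=
  SimpleGraph.fromRel (fun s t : Equiv.Perm (Fin n) =>
    ∃ a b : Fin n, X.Adj a b ∧ Y.Adj (s a) (s b) ∧ t = s * Equiv.swap a b)

theorem result :
    (∀ m : ℕ, 1 ≤ m → ∃ (T Y : SimpleGraph (Fin (8 * m))) (σ τ : Equiv.Perm (Fin (8 * m))),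
      T.IsTree ∧ (FS T Y).Reachable σ τ ∧ 2 ^ m - 1 ≤ (FS T Y).dist σ τ) ∧
    ¬ ∃ K : ℝ, ∀ n : ℕ, 2 ≤ n → ∀ T Y : SimpleGraph (Fin n), T.IsTree →
      ∀ σ τ : Equiv.Perm (Fin n), (FS T Y).Reachable σ τ →
        (((FS T Y).dist σ τ : ℕ) : ℝ) ≤ (n : ℝ) ^ K := by
  have h : ∀ m : ℕ, 1 ≤ m → ∃ (T Y : SimpleGraph (Fin (8 * m)))
      (σ τ : Equiv.Perm (Fin (8 * m))),
      T.IsTree ∧ (FS T Y).Reachable σ τ ∧ 2 ^ m - 1 ≤ (FS T Y).dist σ τ := by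
    intro m hm
    obtain ⟨m, rfl⟩ : ∃ k, m = k + 1 := ⟨m - 1, by omega⟩
    exact Pool.Agent.H.MP_5b8c2d_co.main m
  refine ⟨h, fun ⟨K, hK⟩ => ?_⟩
  have hpos : (0 : ℝ) < 1 / (2 * 8 ^ ⌈K⌉₊) := by positivity
  obtain ⟨m, h1, h2⟩ := (((tendsto_pow_const_div_const_pow_of_one_lt ⌈K⌉₊
    (by norm_num : (1 : ℝ) < 2)).eventually (gt_mem_nhds hpos)).and
    (Filter.eventually_ge_atTop 1)).exists
  obtain ⟨T, Y, σ, τ, hT, hr, hd⟩ := h m h2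
  have h3 := hK _ (by omega) T Y hT σ τ hr
  have h4 : ((8 * m : ℕ) : ℝ) ^ K ≤ ((8 * m : ℕ) : ℝ) ^ ⌈K⌉₊ := by
    rw [← Real.rpow_natCast]
    exact Real.rpow_le_rpow_of_exponent_le (by exact_mod_cast (by omega : 1 ≤ 8 * m))
      (Nat.le_ceil K)
  have h5 : ((2 ^ m : ℕ) : ℝ) ≤ ((FS T Y).dist σ τ : ℕ) + 1 := by
    exact_mod_cast (by omega : 2 ^ m ≤ (FS T Y).dist σ τ + 1)
  have h6 : (2 : ℝ) ^ 1 ≤ 2 ^ m := pow_le_pow_right₀ (by norm_num) h2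
  rw [div_lt_div_iff₀ (by positivity) (by positivity)] at h1
  push_cast at h3 h4 h5
  rw [mul_pow] at h4
  nlinarith

end Pool.Agent.Results.MP_5b8c2d_co.No
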